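import Mathlib
import Pool.Agent.K3h95.DR.Conv

/-!
# Shifted Douglas-Rachford iterates for two balls converge

Every plane through the line joining the centres is invariant under `T`. If the balls are disjoint, the
points `a + t e`, `t ≥ r` (`a`, `r` centre and radius of `A`, `e` the unit vector towards the centre
of `B`) are moved by `T` to `a + (t + δ) e` with `δ` the gap, and `v = - δ e`. So the distances of
`y_n = T^n x + n v` to the points of this ray decrease, the steps `y_(n+1) - y_n` tend to zero, the axial
component and the modulus of the transversal component (a multiple of one fixed vector) converge,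
and so does `y_n`. If the balls meet, then `v = 0` and `T` has a fixed point.
-/

set_option autoImplicit false

namespace Pool.Agent.Results.MP_ef197a_an.TwoBalls

open Filter Topology Metric
open scoped RealInnerProductSpace

section defs

variable {E : Type*} [NormedAddCommGroup E] [InnerProductSpace ℝ E]

/-- `P` maps each point to its nearest point in `C` -/
def IsProjection (C : Set E) (P : E → E) : Prop :=
  ∀ x, P x ∈ C ∧ ∀ y ∈ C, ‖x - P x‖ ≤ ‖x - y‖

/-- the reflector `R = 2 P - Id` -/
def reflector (P : E → E) (x : E) : E := (2 : ℝ) • P x - x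

/-- the Douglas-Rachford operator `T = ½ (Id + R_B R_A)` -/
noncomputable def douglasRachford (PA PB : E → E) (x : E) : E :=
  (1 / 2 : ℝ) • (x + reflector PB (reflector PA x))

/-- `v` is the element of least norm of the closure of the range of `Id - T` -/
def IsMinimalDisplacement (T : E → E) (v : E) : Prop :=
  v ∈ closure (Set.range fun x => x - T x) ∧ ∀ w ∈ closure (Set.range fun x => x - T x), ‖v‖ ≤ ‖w‖

end defs

open Pool.Agent.K3h95.DR

variable {E : Type*} [NormedAddCommGroup E] [InnerProductSpace ℝ E]

lemma step_ray {a e : E} {D r s : ℝ} (he : ‖e‖ = 1) (hr : 0 ≤ r) (hs : 0 ≤ s) (hD : r + s < D)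
    {PA PB : E → E} (hA : IsNearest (closedBall a r) PA) (hB : IsNearest (closedBall (a + D • e) s) PB)
    {t : ℝ} (ht : r ≤ t) : dr PA PB (a + t • e) = a + (t + (D - (r + s))) • e := by
  have h1 : PA (a + t • e) = a + r • e := by
    have hn : ‖(a + t • e) - a‖ = t := by
      rw [add_sub_cancel_left, norm_smul, he, mul_one, Real.norm_eq_abs, abs_of_nonneg (hr.trans ht)]
    rcases proj_ball hA (a + t • e) with ⟨h, h'⟩ | ⟨h, h'⟩
    · rw [hn] at h
      rw [h', le_antisymm h ht]
    · rw [hn] at h h'
      rw [h', add_sub_cancel_left, smul_smul]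
      congr 2
      have : t ≠ 0 := by linarith
      field_simp
  have h2 : rfr PA (a + t • e) = a + (2 * r - t) • e := by
    unfold rfr
    rw [h1]
    module
  have h3 : PB (a + (2 * r - t) • e) = a + (D - s) • e := by
    have h0 : (a + (2 * r - t) • e) - (a + D • e) = (-(D + t - 2 * r)) • e := by module
    have hn : ‖(a + (2 * r - t) • e) - (a + D • e)‖ = D + t - 2 * r := by
      rw [h0, norm_smul, he, mul_one, Real.norm_eq_abs, abs_neg, abs_of_nonneg (by linarith)]
    rcases proj_ball hB (a + (2 * r - t) • e) with ⟨h, h'⟩ | ⟨h, h'⟩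
    · rw [hn] at h
      linarith
    · rw [hn] at h'
      rw [h', h0, smul_smul]
      have h4 : D + t - 2 * r ≠ 0 := by linarith
      have h5 : s / (D + t - 2 * r) * -(D + t - 2 * r) = -s := by field_simp
      rw [h5]
      module
  unfold dr
  rw [h2]
  have h4 : rfr PB (a + (2 * r - t) • e) = a + (2 * (D - s) - (2 * r - t)) • e := by
    unfold rfr
    rw [h3]
    module
  rw [h4]
  module

lemma dr_sub (PA PB : E → E) (x : E) : x - dr PA PB x = PA x - PB (rfr PA x) := by
  unfold dr
  have : rfr PB (rfr PA x) = (2 : ℝ) • PB (rfr PA x) - ((2 : ℝ) • PA x - x) := rfl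
  rw [this]
  module

/-- the disjoint case -/
lemma disjoint_case {a b : E} {r s : ℝ} (hD : r + s < ‖b - a‖) {PA PB : E → E}
    (hA : IsNearest (closedBall a r) PA) (hB : IsNearest (closedBall b s) PB) {v : E}
    (hv : IsMinimalDisplacement (dr PA PB) v) (x : E) :
    ∃ l, Tendsto (fun n : ℕ => (dr PA PB)^[n] x + (n : ℝ) • v) atTop (𝓝 l) := by
  have hr : 0 ≤ r := by
    have := (hA a).1
    rw [mem_closedBall] at this
    exact dist_nonneg.trans this
  have hs : 0 ≤ s := by
    have := (hB a).1
    rw [mem_closedBall] at this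
    exact dist_nonneg.trans this
  set D := ‖b - a‖ with hDdef
  have hD0 : 0 < D := by linarith
  set e : E := (1 / D) • (b - a) with he'
  have he : ‖e‖ = 1 := by
    rw [he', norm_smul, ← hDdef, Real.norm_eq_abs, abs_of_pos (by positivity)]
    field_simp
  have hba : b - a = D • e := by
    rw [he', smul_smul]
    have : D * (1 / D) = 1 := by field_simp
    rw [this, one_smul]
  have hb : b = a + D • e := by rw [← hba]; abel
  set δ := D - (r + s) with hδ
  have hδ0 : 0 < δ := by linarith
  set T := dr PA PB with hT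
  have hB' : IsNearest (closedBall (a + D • e) s) PB := by rw [← hb]; exact hB
  have hray : ∀ t, r ≤ t → T (a + t • e) = a + (t + δ) • e := fun t ht =>
    step_ray he hr hs hD hA hB' ht
  -- the minimal displacement vector
  have hveq : v = (-δ) • e := by
    have h1 : (-δ) • e ∈ Set.range fun x => x - T x := by
      refine ⟨a + r • e, ?_⟩
      simp only
      rw [hray r le_rfl]
      module
    have h2 : ‖v‖ ≤ δ := by
      have := hv.2 _ (subset_closure h1)
      rwa [norm_smul, he, mul_one, Real.norm_eq_abs, abs_neg, abs_of_pos hδ0] at this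
    have h3 : (Set.range fun x => x - T x) ⊆ closedBall (a - b) (r + s) := by
      rintro _ ⟨z, rfl⟩
      simp only
      rw [hT, dr_sub, mem_closedBall, dist_eq_norm]
      have h4 := (hA z).1
      have h5 := (hB (rfr PA z)).1
      rw [mem_closedBall, dist_eq_norm] at h4 h5
      have h6 : PA z - PB (rfr PA z) - (a - b) = (PA z - a) - (PB (rfr PA z) - b) := by abel
      rw [h6]
      exact (norm_sub_le _ _).trans (add_le_add h4 h5)
    have h4 : v ∈ closedBall (a - b) (r + s) := (closure_minimal h3 isClosed_closedBall) hv.1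
    rw [mem_closedBall, dist_eq_norm] at h4
    have h5 : v - (a - b) = v + D • e := by
      rw [← hba]
      abel
    rw [h5] at h4
    have h6 : ‖v + D • e‖ ^ 2 ≤ (r + s) ^ 2 := pow_le_pow_left₀ (norm_nonneg _) h4 2
    rw [norm_add_sq_real, inner_smul_right, norm_smul, mul_pow, Real.norm_eq_abs, sq_abs, he] at h6
    have h7 : ‖v‖ ^ 2 ≤ δ ^ 2 := pow_le_pow_left₀ (norm_nonneg _) h2 2
    have h8 : ‖v - (-δ) • e‖ ^ 2 ≤ 0 := by
      rw [norm_sub_sq_real, inner_smul_right, norm_smul, mul_pow, Real.norm_eq_abs, sq_abs, he]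
      have h9 : 2 * (D * ⟪v, e⟫) ≤ (r + s) ^ 2 - ‖v‖ ^ 2 - D ^ 2 := by linarith
      have h10 : δ / D * (2 * (D * ⟪v, e⟫)) ≤ δ / D * ((r + s) ^ 2 - ‖v‖ ^ 2 - D ^ 2) :=
        mul_le_mul_of_nonneg_left h9 (by positivity)
      have h11 : δ / D * (2 * (D * ⟪v, e⟫)) = 2 * (δ * ⟪v, e⟫) := by field_simp
      rw [h11] at h10
      have h12 : (r + s) = D - δ := by rw [hδ]; ring
      rw [h12] at h10
      have h13 : δ / D * ((D - δ) ^ 2 - ‖v‖ ^ 2 - D ^ 2) =
          -2 * δ ^ 2 + δ / D * (δ ^ 2 - ‖v‖ ^ 2) := by
        field_simp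
        ring
      have h14 : δ / D ≤ 1 := by
        rw [div_le_one hD0]
        linarith
      have h15 : δ / D * (δ ^ 2 - ‖v‖ ^ 2) ≤ 1 * (δ ^ 2 - ‖v‖ ^ 2) :=
        mul_le_mul_of_nonneg_right h14 (by linarith)
      nlinarith
    have h9 := le_antisymm h8 (sq_nonneg _)
    exact sub_eq_zero.1 (norm_eq_zero.1 ((pow_eq_zero_iff (by norm_num)).1 h9))
  have hfirm : ∀ y z, ‖T y - T z‖ ^ 2 + ‖(y - T y) - (z - T z)‖ ^ 2 ≤ ‖y - z‖ ^ 2 :=
    dr_firm (convex_closedBall a r) (convex_closedBall b s) hA hB
  set y : ℕ → E := fun n => T^[n] x + (n : ℝ) • v with hy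
  -- one step, compared with a point of the ray
  have hstep : ∀ (t : ℝ), r ≤ t → ∀ n : ℕ, ‖y (n + 1) - (a + t • e)‖ ^ 2 + ‖y (n + 1) - y n‖ ^ 2 ≤
      ‖y n - (a + t • e)‖ ^ 2 := by
    intro t ht n
    have h1 := hfirm (T^[n] x) (a + (t + n * δ) • e)
    have htn : r ≤ t + n * δ := by
      have : 0 ≤ (n : ℝ) * δ := by positivity
      linarith
    rw [hray _ htn] at h1
    have e1 : y (n + 1) - (a + t • e) = T (T^[n] x) - (a + (t + n * δ + δ) • e) := by
      simp only [hy]
      rw [Function.iterate_succ_apply', hveq]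
      push_cast
      module
    have e2 : y (n + 1) - y n = -((T^[n] x - T (T^[n] x)) - (a + (t + n * δ) • e - (a + (t + n * δ + δ) • e))) := by
      simp only [hy]
      rw [Function.iterate_succ_apply', hveq]
      push_cast
      module
    have e3 : y n - (a + t • e) = T^[n] x - (a + (t + n * δ) • e) := by
      simp only [hy]
      rw [hveq]
      module
    rw [e1, e2, e3, norm_neg]
    exact h1
  set w₀ : E := (x - a) - ⟪x - a, e⟫ • e with hw₀
  refine planar_conv (y := y) (a := a) (e := e) (w₀ := w₀) he r (fun t ht => ?_) (fun n => ?_)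
    (fun n => ?_)
  · refine antitone_nat_of_succ_le fun n => ?_
    have := hstep t ht n
    nlinarith [sq_nonneg ‖y (n + 1) - y n‖]
  · have := hstep r le_rfl n
    linarith
  · -- the orbit stays in the plane spanned by `e` and `w₀`
    set S : Submodule ℝ E := Submodule.span ℝ {e, w₀} with hS
    have heS : e ∈ S := Submodule.subset_span (by simp)
    have hwS : w₀ ∈ S := Submodule.subset_span (by simp)
    have hbS : b - a ∈ S := by rw [hba]; exact S.smul_mem _ heS
    have hxS : x - a ∈ S := by
      have : x - a = w₀ + ⟪x - a, e⟫ • e := by rw [hw₀]; abel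
      rw [this]
      exact S.add_mem hwS (S.smul_mem _ heS)
    have hall : ∀ m : ℕ, T^[m] x - a ∈ S := by
      intro m
      induction m with
      | zero => exact hxS
      | succ m ih =>
        rw [Function.iterate_succ_apply']
        exact dr_mem hA hB S hbS ih
    have hyS : y n - a ∈ S := by
      have : y n - a = (T^[n] x - a) + (n * (-δ)) • e := by
        simp only [hy]
        rw [hveq]
        module
      rw [this]
      exact S.add_mem (hall n) (S.smul_mem _ heS)
    obtain ⟨p, q, hpq⟩ := Submodule.mem_span_pair.1 hyS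
    refine ⟨q, ?_⟩
    have hwe : ⟪w₀, e⟫ = 0 := by
      rw [hw₀, inner_sub_left, inner_smul_left, real_inner_self_eq_norm_sq, he]
      simp
    have hin : ⟪y n - a, e⟫ = p := by
      rw [← hpq, inner_add_left, real_inner_smul_left e e p, real_inner_smul_left w₀ e q,
        real_inner_self_eq_norm_sq, he, hwe]
      ring
    rw [hin, ← hpq]
    abel

/-- the intersecting case -/
lemma meeting_case {a b : E} {r s : ℝ} (hD : ‖b - a‖ ≤ r + s) {PA PB : E → E}
    (hA : IsNearest (closedBall a r) PA) (hB : IsNearest (closedBall b s) PB) {v : E}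
    (hv : IsMinimalDisplacement (dr PA PB) v) (x : E) :
    ∃ l, Tendsto (fun n : ℕ => (dr PA PB)^[n] x + (n : ℝ) • v) atTop (𝓝 l) := by
  have hr : 0 ≤ r := by
    have := (hA a).1
    rw [mem_closedBall] at this
    exact dist_nonneg.trans this
  have hs : 0 ≤ s := by
    have := (hB a).1
    rw [mem_closedBall] at this
    exact dist_nonneg.trans this
  -- a common point
  obtain ⟨f, hfA, hfB⟩ : ∃ f, f ∈ closedBall a r ∧ f ∈ closedBall b s := by
    rcases le_or_gt ‖b - a‖ r with h | h
    · exact ⟨b, by rw [mem_closedBall, dist_eq_norm]; exact h, mem_closedBall_self hs⟩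
    · have hD0 : 0 < ‖b - a‖ := lt_of_le_of_lt hr h
      refine ⟨a + (r / ‖b - a‖) • (b - a), ?_, ?_⟩
      · rw [mem_closedBall, dist_eq_norm, add_sub_cancel_left, norm_smul, Real.norm_eq_abs,
          abs_of_nonneg (by positivity)]
        exact le_of_eq (by field_simp)
      · rw [mem_closedBall, dist_eq_norm]
        have : a + (r / ‖b - a‖) • (b - a) - b = -((1 - r / ‖b - a‖) • (b - a)) := by module
        rw [this, norm_neg, norm_smul, Real.norm_eq_abs, abs_of_nonneg]
        · have : (1 - r / ‖b - a‖) * ‖b - a‖ = ‖b - a‖ - r := by field_simp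
          linarith
        · rw [sub_nonneg, div_le_one hD0]
          exact h.le
  have hfix : ∀ {c : E} {ρ : ℝ} {P : E → E}, IsNearest (closedBall c ρ) P → f ∈ closedBall c ρ → P f = f := by
    intro c ρ P hP hf
    have h1 := (hP f).2 f hf
    rw [sub_self, norm_zero] at h1
    exact (sub_eq_zero.1 (norm_eq_zero.1 (le_antisymm h1 (norm_nonneg _)))).symm
  have hRA : rfr PA f = f := by
    unfold rfr
    rw [hfix hA hfA]
    module
  have hRB : rfr PB f = f := by
    unfold rfr
    rw [hfix hB hfB]
    module
  have hTf : dr PA PB f = f := by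
    unfold dr
    rw [hRA, hRB]
    module
  have hv0 : v = 0 := by
    have h1 : (0 : E) ∈ Set.range fun x => x - dr PA PB x := ⟨f, by simp only; rw [hTf, sub_self]⟩
    have h2 := hv.2 _ (subset_closure h1)
    rw [norm_zero] at h2
    exact norm_eq_zero.1 (le_antisymm h2 (norm_nonneg _))
  subst hv0
  simp only [smul_zero, add_zero]
  set S : Submodule ℝ E := Submodule.span ℝ {b - a, x - a} with hS
  have hbS : b - a ∈ S := Submodule.subset_span (by simp)
  have hxS : x - a ∈ S := Submodule.subset_span (by simp)
  have hfin : FiniteDimensional ℝ S := FiniteDimensional.span_of_finite ℝ (Set.toFinite _)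
  refine fixed_conv (dr_firm (convex_closedBall a r) (convex_closedBall b s) hA hB) hTf a S x ?_
  intro m
  induction m with
  | zero => exact hxS
  | succ m ih =>
    rw [Function.iterate_succ_apply']
    exact dr_mem hA hB S hbS ih

/-- **For any two closed balls `A`, `B` in a real inner product space (in particular in
`ℝ³`), the shifted Douglas-Rachford iterates `T^n x + n v` converge for every `x`.** -/
theorem result (E : Type*) [NormedAddCommGroup E] [InnerProductSpace ℝ E] (a b : E) (r s : ℝ)
    (PA PB : E → E) (hA : IsProjection (closedBall a r) PA) (hB : IsProjection (closedBall b s) PB)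
    (v : E) (hv : IsMinimalDisplacement (douglasRachford PA PB) v) (x : E) :
    ∃ l : E, Tendsto (fun n : ℕ => (douglasRachford PA PB)^[n] x + (n : ℝ) • v) atTop (𝓝 l) := by
  rcases le_or_gt ‖b - a‖ (r + s) with h | h
  · exact meeting_case h hA hB hv x
  · exact disjoint_case h hA hB hv x

end Pool.Agent.Results.MP_ef197a_an.TwoBalls
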